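import Pool.Agent.R533.DP.Correct

/-!
# Down-posets can be recognised in polynomial time

The definitions `IsDownPoset`, `Describes`, `DownPosetProblem` are in the file
`Pool/Agent/R533/DP/Defs.lean`, the class `P` (`InPP`) is defined in the files
`Pool/Agent/NPC/Defs.lean` and `Pool/Agent/NPC/Classes.lean` (Turing machines of Mathlib).

Idea. For a pair `c ≤ d` a `↓`-function `f` with `f d = c` is wanted. The conditions on `f` are
binary: for `x' ≤ x` the elements below `f x'` are the common lower bounds of `x'` and `f x`. If
the candidates for the values `f x` are arc consistent, then finite sets of candidates at `x` have
infima, and the infima of all remaining candidates form a `↓`-function. So arc consistency decides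
the existence of `f`.
-/

set_option autoImplicit false

namespace Pool.Agent.Results.MP_dd7d0c_lc.RecognitionInP

open Pool.Agent.NPC Pool.Agent.R533.DP

/-- It can be decided in polynomial time by a deterministic Turing machine whether a finite poset,
given by the Boolean matrix of its order relation, is a `↓`-poset. -/
theorem result : InPP DownPosetProblem := Pool.Agent.NPC.R533.DP.inPP_downPoset

end Pool.Agent.Results.MP_dd7d0c_lc.RecognitionInP
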